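import Pool.Agent.Q92.AR.Stm3
import Pool.Agent.W446.AS.Clif

/-! # Project AR (helper92), job CLIFF -/

set_option autoImplicit false
set_option linter.unusedSectionVars false

namespace Pool.Agent.Q150.AR

open Pool.Agent.H302R2 Pool.Agent.H541R3.ART Pool.Agent.W446.AS Pool.Agent.Q92.AR

section
variable {G : Type} [Group G] [Finite G]

/-- Let `P` be a projection commuting with `H` and with `P ρ(g) P = 0` outside `H`. Then the image
of `P` is an irreducible representation of `H` and `ρ` is induced by it. -/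
theorem imprimInd {V : Type} [AddCommGroup V] [Module ℂ V] [FiniteDimensional ℂ V]
    {ρ : Representation ℂ G V} (hρ : Irred ρ) (H : Subgroup G) (P : V →ₗ[ℂ] V)
    (hP2 : ∀ v, P (P v) = P v) (hP0 : P ≠ 0) (hPH : ∀ h ∈ H, ∀ v, P (ρ h v) = ρ h (P v))
    (hPG : ∀ g, g ∉ H → ∀ v, P (ρ g (P v)) = 0) :
    ∃ ψ ∈ Irr H, ∀ g, ρ.character g = inducedF H ψ g := by
  classical
  have : Fintype G := Fintype.ofFinite G
  have : Fintype H := Fintype.ofFinite H
  have hfix : ∀ v ∈ LinearMap.range P, P v = v := by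
    rintro v ⟨w, rfl⟩
    exact hP2 w
  let σ : Representation ℂ H (LinearMap.range P) :=
    { toFun := fun h => (ρ h).restrict (by
        rintro v ⟨w, rfl⟩
        exact ⟨ρ h w, hPH h h.2 w⟩)
      map_one' := by
        ext v
        simp
      map_mul' := by
        intro a b
        ext v
        simp }
  have hσ : ∀ (h : H) (v : LinearMap.range P), ((σ h v : LinearMap.range P) : V) = ρ h v :=
    fun h v => rfl
  have hσI : Irred σ := by
    refine ⟨?_, ?_⟩
    · by_contra hcon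
      rw [not_nontrivial_iff_subsingleton] at hcon
      apply hP0
      ext v
      have h1 : (⟨P v, ⟨v, rfl⟩⟩ : LinearMap.range P) = 0 := Subsingleton.elim _ _
      have h2 := congrArg Subtype.val h1
      simpa using h2
    · intro U hU
      by_cases hU0 : U = ⊥
      · left; exact hU0
      right
      let U' : Submodule ℂ V :=
        { carrier := {v | ∀ g : G, ∃ u ∈ U, P (ρ g v) = u}
          add_mem' := by
            intro a b ha hb g
            obtain ⟨u, hu, h1⟩ := ha g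
            obtain ⟨w, hw, h2⟩ := hb g
            exact ⟨u + w, U.add_mem hu hw, by rw [map_add, map_add, h1, h2]; rfl⟩
          zero_mem' := by
            intro g
            exact ⟨0, U.zero_mem, by rw [map_zero, map_zero]; rfl⟩
          smul_mem' := by
            intro c a ha g
            obtain ⟨u, hu, h1⟩ := ha g
            exact ⟨c • u, U.smul_mem c hu, by rw [map_smul, map_smul, h1]; rfl⟩ }
      have hU' : ∀ v : V, v ∈ U' ↔ ∀ g : G, ∃ u ∈ U, P (ρ g v) = u := fun v => Iff.rfl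
      rcases hρ.2 U' (by
        intro x v hv g
        obtain ⟨u, hu, h1⟩ := hv (g * x)
        refine ⟨u, hu, ?_⟩
        rw [map_mul, Module.End.mul_apply] at h1
        exact h1) with h | h
      · exfalso
        apply hU0
        rw [eq_bot_iff]
        intro u hu
        have h1 : (u : V) ∈ U' := by
          intro g
          by_cases hg : g ∈ H
          · refine ⟨σ ⟨g, hg⟩ u, hU _ _ hu, ?_⟩
            rw [hPH g hg, hfix _ u.2, hσ]
          · refine ⟨0, U.zero_mem, ?_⟩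
            have := hPG g hg u
            rw [hfix _ u.2] at this
            rw [this]
            rfl
        rw [h, Submodule.mem_bot] at h1
        rw [Submodule.mem_bot]
        exact Subtype.ext h1
      · rw [eq_top_iff]
        intro v _
        have h1 : (v : V) ∈ U' := by rw [h]; exact Submodule.mem_top
        obtain ⟨u, hu, h2⟩ := h1 1
        rw [map_one, Module.End.one_apply, hfix _ v.2] at h2
        have h3 : v = u := Subtype.ext h2
        rw [h3]; exact hu
  refine ⟨σ.character, irr_of_irred hσI, fun g => ?_⟩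
  -- the traces of `ρ y ∘ P`
  have htr : ∀ y : G, LinearMap.trace ℂ V (ρ y ∘ₗ P) =
      if h : y ∈ H then σ.character ⟨y, h⟩ else 0 := by
    intro y
    split_ifs with h
    · have h1 : (σ ⟨y, h⟩ : LinearMap.range P →ₗ[ℂ] LinearMap.range P) =
          P.rangeRestrict ∘ₗ (ρ y ∘ₗ (LinearMap.range P).subtype) := by
        refine LinearMap.ext fun v => Subtype.ext ?_
        rw [hσ]
        change ρ y v = P (ρ y v)
        rw [hPH y h, hfix _ v.2]
      change _ = LinearMap.trace ℂ _ (σ ⟨y, h⟩)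
      rw [h1]
      exact LinearMap.trace_comp_comm' P.rangeRestrict (ρ y ∘ₗ (LinearMap.range P).subtype)
    · have h1 : ρ y ∘ₗ P = (ρ y ∘ₗ P) ∘ₗ P := by
        refine LinearMap.ext fun v => ?_
        change ρ y (P v) = ρ y (P (P v))
        rw [hP2]
      rw [h1, LinearMap.trace_comp_comm']
      have h2 : P ∘ₗ (ρ y ∘ₗ P) = 0 := LinearMap.ext fun v => hPG y h v
      rw [h2, map_zero]
  let T : V →ₗ[ℂ] V := ∑ x : G, ρ x ∘ₗ P ∘ₗ ρ x⁻¹
  have hT : ∀ v, T v = ∑ x : G, ρ x (P (ρ x⁻¹ v)) := fun v => by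
    simp [T, LinearMap.sum_apply]
  obtain ⟨q, hq⟩ := hρ.scalar T (by
    intro g v
    rw [hT, hT, map_sum]
    refine Fintype.sum_equiv (Equiv.mulLeft g⁻¹) _ _ fun x => ?_
    rw [Equiv.coe_mulLeft, mul_inv_rev, inv_inv, map_mul, map_mul, Module.End.mul_apply,
      ← Module.End.mul_apply (ρ g) (ρ g⁻¹), ← map_mul, mul_inv_cancel, map_one,
      Module.End.one_apply, Module.End.mul_apply])
  obtain ⟨v₀, hv₀⟩ : ∃ v, P v ≠ 0 := by
    by_contra hcon
    push Not at hcon
    exact hP0 (LinearMap.ext hcon)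
  have hqH : q = (Nat.card H : ℂ) := by
    have h1 := hq (P v₀)
    rw [hT] at h1
    have h4 : ∀ x : G, ρ x (P (ρ x⁻¹ (P v₀))) = if x ∈ H then P v₀ else 0 := by
      intro x
      by_cases hx : x ∈ H
      · rw [if_pos hx, hPH _ (H.inv_mem hx), hP2, ← Module.End.mul_apply, ← map_mul,
          mul_inv_cancel, map_one, Module.End.one_apply]
      · rw [if_neg hx, hPG x⁻¹ (fun h => hx (by simpa using H.inv_mem h)), map_zero]
    rw [Finset.sum_congr rfl (fun x _ => h4 x), ← Finset.sum_filter, Finset.sum_const,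
      ← Nat.cast_smul_eq_nsmul ℂ] at h1
    have h5 : (Finset.univ.filter fun x => x ∈ H).card = Nat.card H := by
      rw [Nat.card_eq_fintype_card, Fintype.card_subtype]
    rw [h5] at h1
    have h6 : ((Nat.card H : ℂ) - q) • P v₀ = 0 := by rw [sub_smul, h1, sub_self]
    rcases smul_eq_zero.mp h6 with h7 | h7
    · exact (sub_eq_zero.mp h7).symm
    · exact absurd h7 hv₀
  have hH0 : (Nat.card H : ℂ) ≠ 0 := card_ne
  have hTq : T = q • LinearMap.id := LinearMap.ext fun v => by rw [hq]; rfl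
  have h8 : LinearMap.trace ℂ V (ρ g ∘ₗ T) = (Nat.card H : ℂ) * ρ.character g := by
    rw [hTq, LinearMap.comp_smul, map_smul, LinearMap.comp_id, hqH]
    rfl
  have h9 : LinearMap.trace ℂ V (ρ g ∘ₗ T) = ∑ x : G,
      if h : x⁻¹ * g * x ∈ H then σ.character ⟨x⁻¹ * g * x, h⟩ else 0 := by
    have h10 : ρ g ∘ₗ T = ∑ x : G, ρ g ∘ₗ (ρ x ∘ₗ P ∘ₗ ρ x⁻¹) := by
      refine LinearMap.ext fun v => ?_
      rw [LinearMap.comp_apply, hT, map_sum, LinearMap.sum_apply]
      rfl
    rw [h10, map_sum]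
    refine Finset.sum_congr rfl fun x _ => ?_
    rw [← htr (x⁻¹ * g * x)]
    have h11 : ρ g ∘ₗ (ρ x ∘ₗ P ∘ₗ ρ x⁻¹) = (ρ g ∘ₗ ρ x ∘ₗ P) ∘ₗ ρ x⁻¹ := rfl
    rw [h11, LinearMap.trace_comp_comm']
    congr 1
    refine LinearMap.ext fun v => ?_
    rw [map_mul, map_mul]
    rfl
  unfold inducedF
  rw [finsum_eq_sum_of_fintype, ← h9, h8, ← mul_assoc, inv_mul_cancel₀ hH0, one_mul]

/-- Clifford's theorem for an abelian normal subgroup that does not act by scalars -/
theorem cliffRep' {V : Type} [AddCommGroup V] [Module ℂ V] [FiniteDimensional ℂ V]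
    {ρ : Representation ℂ G V} (hρ : Irred ρ) (A : Subgroup G)
    [A.Normal] (hA : ∀ a b : A, a * b = b * a) (hc : ¬ ∀ a ∈ A, ∃ c : ℂ, ∀ v, ρ a v = c • v) :
    ∃ H : Subgroup G, H ≠ ⊤ ∧ ∃ ψ ∈ Irr H, ∀ g, ρ.character g = inducedF H ψ g := by
  classical
  have : Fintype A := Fintype.ofFinite A
  have hcA : (Nat.card A : ℂ) ≠ 0 := card_ne
  obtain ⟨μ, v₀, hv₀, hμ⟩ := exists_weight hA (ρ.comp A.subtype) hρ.1
  have hμ' : ∀ a : A, ρ a v₀ = ((μ a : ℂˣ) : ℂ) • v₀ := hμ
  let H : Subgroup G :=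
    { carrier := {g | ∀ a : A, μ (MulAut.conjNormal g a) = μ a}
      mul_mem' := by
        intro x y hx hy a
        rw [map_mul, MulAut.mul_apply, hx, hy]
      one_mem' := by
        intro a
        rw [map_one, MulAut.one_apply]
      inv_mem' := by
        intro x hx a
        have h1 := hx (MulAut.conjNormal x⁻¹ a)
        rw [← MulAut.mul_apply, ← map_mul, mul_inv_cancel, map_one, MulAut.one_apply] at h1
        exact h1.symm }
  have hH : ∀ g, g ∈ H ↔ ∀ a : A, μ (MulAut.conjNormal g a) = μ a := fun g => Iff.rfl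
  let P : V →ₗ[ℂ] V := (Nat.card A : ℂ)⁻¹ • ∑ a : A, (((μ a)⁻¹ : ℂˣ) : ℂ) • ρ a
  have hP : ∀ v, P v = (Nat.card A : ℂ)⁻¹ • ∑ a : A, (((μ a)⁻¹ : ℂˣ) : ℂ) • ρ a v := by
    intro v
    simp [P, LinearMap.sum_apply]
  have hPw : ∀ v, (∀ a : A, ρ a v = ((μ a : ℂˣ) : ℂ) • v) → P v = v := by
    intro v hv
    rw [hP]
    have h1 : ∀ a : A, (((μ a)⁻¹ : ℂˣ) : ℂ) • ρ a v = v := by
      intro a
      rw [hv, smul_smul, ← Units.val_mul, inv_mul_cancel, Units.val_one, one_smul]
    rw [Finset.sum_congr rfl (fun a _ => h1 a), Finset.sum_const, Finset.card_univ,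
      ← Nat.card_eq_fintype_card, ← Nat.cast_smul_eq_nsmul ℂ, smul_smul, inv_mul_cancel₀ hcA,
      one_smul]
  have hwP : ∀ (a : A) (v : V), ρ a (P v) = ((μ a : ℂˣ) : ℂ) • P v := by
    intro a v
    rw [hP, map_smul, map_sum, smul_comm ((μ a : ℂˣ) : ℂ) ((Nat.card A : ℂ)⁻¹)]
    congr 1
    rw [Finset.smul_sum, ← Equiv.sum_comp (Equiv.mulLeft a) (fun b : A => ((μ a : ℂˣ) : ℂ) •
      (((μ b)⁻¹ : ℂˣ) : ℂ) • ρ b v)]
    refine Finset.sum_congr rfl fun b _ => ?_
    rw [map_smul, Equiv.coe_mulLeft, map_mul, mul_inv_rev, smul_smul, ← Units.val_mul,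
      mul_comm (μ b)⁻¹, ← mul_assoc, mul_inv_cancel, one_mul, Subgroup.coe_mul, map_mul,
      Module.End.mul_apply]
  have hPc : ∀ (g : G), g ∈ H → ∀ v, P (ρ g v) = ρ g (P v) := by
    intro g hg v
    rw [hP, hP, map_smul, map_sum]
    congr 1
    rw [← Equiv.sum_comp (MulAut.conjNormal g).toEquiv (fun b : A =>
      (((μ b)⁻¹ : ℂˣ) : ℂ) • ρ b (ρ g v))]
    refine Finset.sum_congr rfl fun b _ => ?_
    change (((μ (MulAut.conjNormal g b))⁻¹ : ℂˣ) : ℂ) • ρ (MulAut.conjNormal g b : A) (ρ g v) = _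
    rw [map_smul, (hH g).mp hg, ← Module.End.mul_apply,
      ← Module.End.mul_apply, ← map_mul, ← map_mul, MulAut.conjNormal_apply,
      inv_mul_cancel_right]
  have hAH : ∀ a : A, (a : G) ∈ H := by
    intro a
    rw [hH]
    intro b
    have h1 : MulAut.conjNormal (a : G) b = b := by
      apply Subtype.ext
      rw [MulAut.conjNormal_apply]
      have := congrArg Subtype.val (hA a b)
      simp only [Subgroup.coe_mul] at this
      rw [this, mul_inv_cancel_right]
    rw [h1]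
  have hPG : ∀ g, g ∉ H → ∀ v, P (ρ g (P v)) = 0 := by
    intro g hg v
    have h0 : ∃ a : A, μ (MulAut.conjNormal g⁻¹ a) ≠ μ a := by
      by_contra hcon
      push Not at hcon
      apply hg
      have h1 : g⁻¹ ∈ H := hcon
      simpa using H.inv_mem h1
    obtain ⟨a, ha⟩ := h0
    have h1 : ρ a (ρ g (P v)) = ((μ (MulAut.conjNormal g⁻¹ a) : ℂˣ) : ℂ) • ρ g (P v) := by
      have h2 : (a : G) * g = g * (MulAut.conjNormal g⁻¹ a : A) := by
        rw [MulAut.conjNormal_apply]
        group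
      rw [← Module.End.mul_apply, ← map_mul, h2, map_mul, Module.End.mul_apply, hwP, map_smul]
    have h2 := hPc a (hAH a) (ρ g (P v))
    rw [h1, map_smul, hwP] at h2
    have h3 : (((μ (MulAut.conjNormal g⁻¹ a) : ℂˣ) : ℂ) - ((μ a : ℂˣ) : ℂ)) • P (ρ g (P v)) = 0 := by
      rw [sub_smul, h2, sub_self]
    rcases smul_eq_zero.mp h3 with h4 | h4
    · exact absurd (Units.ext (sub_eq_zero.mp h4)) ha
    · exact h4
  have hP0 : P v₀ = v₀ := hPw v₀ hμ'
  refine ⟨H, ?_, imprimInd hρ H P (fun v => hPw _ fun a => hwP a v) ?_ (fun h hh v => hPc h hh v) hPG⟩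
  · intro htop
    have hall : ∀ g : G, g ∈ H := fun g => by rw [htop]; exact Subgroup.mem_top g
    obtain ⟨c, hcP⟩ := hρ.scalar P (fun g v => hPc g (hall g) v)
    have hc1 : c = 1 := by
      have h1 := hcP v₀
      rw [hP0] at h1
      have h2 : (c - 1) • v₀ = 0 := by rw [sub_smul, one_smul, ← h1, sub_self]
      rcases smul_eq_zero.mp h2 with h3 | h3
      · exact sub_eq_zero.mp h3
      · exact absurd h3 hv₀
    have hsc : ∀ (a : A) (v : V), ρ a v = ((μ a : ℂˣ) : ℂ) • v := by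
      intro a v
      have h1 := hwP a v
      rw [hcP, hc1, one_smul] at h1
      exact h1
    exact hc fun a ha => ⟨_, hsc ⟨a, ha⟩⟩
  · intro h
    rw [h] at hP0
    exact hv₀ hP0.symm

/-- JOB CLIFF for a representation -/
theorem cliffRep {V : Type} [AddCommGroup V] [Module ℂ V] [FiniteDimensional ℂ V]
    {ρ : Representation ℂ G V} (hρ : Irred ρ) (A : Subgroup G)
    [A.Normal] (hA : ∀ a b : A, a * b = b * a) (hc : ∃ a ∈ A, ‖ρ.character a‖ ≠ ‖ρ.character 1‖) :
    ∃ H : Subgroup G, H ≠ ⊤ ∧ ∃ ψ ∈ Irr H, ∀ g, ρ.character g = inducedF H ψ g := by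
  refine cliffRep' hρ A hA fun hsc => ?_
  obtain ⟨a, ha, hne⟩ := hc
  apply hne
  obtain ⟨c, hc⟩ := hsc a ha
  have := hρ.1
  obtain ⟨v₀, hv₀⟩ := exists_ne (0 : V)
  have h1 : ρ a = c • LinearMap.id := LinearMap.ext fun v => hc v
  have h2 : ρ.character a = c * ρ.character 1 := by
    change LinearMap.trace ℂ V (ρ a) = _ * LinearMap.trace ℂ V (ρ 1)
    rw [h1, map_smul, map_one]
    rfl
  have h4 : ∀ k : ℕ, ρ (a ^ k) v₀ = c ^ k • v₀ := by
    intro k
    induction k with
    | zero => rw [pow_zero, pow_zero, map_one, one_smul]; rfl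
    | succ k ih =>
      rw [pow_succ', map_mul, Module.End.mul_apply, ih, map_smul, hc, smul_smul, pow_succ]
  have h5 : c ^ Nat.card G = 1 := by
    have h6 := h4 (Nat.card G)
    rw [pow_card_eq_one', map_one, Module.End.one_apply] at h6
    have h7 : (1 - c ^ Nat.card G) • v₀ = 0 := by rw [sub_smul, one_smul, ← h6, sub_self]
    rcases smul_eq_zero.mp h7 with h8 | h8
    · exact (sub_eq_zero.mp h8).symm
    · exact absurd h8 hv₀
  have h3 : ‖c‖ = 1 := Complex.norm_eq_one_of_pow_eq_one h5 Nat.card_pos.ne'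
  rw [h2, norm_mul, h3, one_mul]

end

/-- JOB CLIFF -/
theorem cliff : S_Cliff := by
  intro G _ _ χ hχ A hA hab hne
  obtain ⟨n, ρ, hρ, rfl⟩ := exists_rep hχ
  exact cliffRep hρ A (fun a b => Subtype.ext (hab a a.2 b b.2)) hne

end Pool.Agent.Q150.AR
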