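import Pool.Agent.Q92.AR.Stm
import Mathlib.NumberTheory.NumberField.Units.DirichletTheorem

/-! # Project AR (helper92), job EPS -/

set_option autoImplicit false

namespace Pool.Agent.Q150.AR

open Pool.Agent.Q92.AR NumberField

/-- the divisor of an integral unit is zero -/
theorem prin_unit {E : Type} [Field E] [NumberField E] (x : Eˣ) (h1 : IsIntegral ℤ (x : E))
    (h2 : IsIntegral ℤ ((x⁻¹ : Eˣ) : E)) : prin x = 0 := by
  obtain ⟨a, ha⟩ : ∃ a : 𝓞 E, algebraMap (𝓞 E) E a = (x : E) := ⟨⟨x, h1⟩, rfl⟩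
  obtain ⟨b, hb⟩ : ∃ b : 𝓞 E, algebraMap (𝓞 E) E b = ((x⁻¹ : Eˣ) : E) := ⟨⟨_, h2⟩, rfl⟩
  have hab : a * b = 1 := by
    apply FaithfulSMul.algebraMap_injective (𝓞 E) E
    rw [map_mul, map_one, ha, hb, Units.mul_inv]
  have key : ∀ (y : Eˣ) (c : 𝓞 E), algebraMap (𝓞 E) E c = (y : E) → ∀ v, 0 ≤ prin y v := by
    intro y c hc v
    rw [prin_apply, ← hc]
    have : FractionalIdeal.spanSingleton (nonZeroDivisors (𝓞 E)) (algebraMap (𝓞 E) E c) =
        ((Ideal.span {c} : Ideal (𝓞 E)) : FractionalIdeal (nonZeroDivisors (𝓞 E)) E) :=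
      (FractionalIdeal.coeIdeal_span_singleton c).symm
    rw [this]
    exact FractionalIdeal.count_coe_nonneg E v _
  ext v
  have k1 := key x a ha v
  have k2 := key x⁻¹ b hb v
  rw [prin_inv, Finsupp.neg_apply] at k2
  rw [Finsupp.zero_apply]
  omega

/-- JOB EPS -/
theorem eps : S_Eps := by
  classical
  intro F E _ _ _ _ _ _
  haveI : Fintype (E ≃ₐ[F] E) := Fintype.ofFinite _
  choose u hu using Units.dirichletUnitTheorem.exists_unit E
  set y : InfinitePlace E → Eˣ := fun w => Units.map (algebraMap (𝓞 E) E : 𝓞 E →* E) (u w) with hy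
  set ε : InfinitePlace E → Eˣ := fun w =>
    ∏ g : E ≃ₐ[F] E, Units.map (g : E →* E) (y (g⁻¹ • w)) with hε
  have hyint : ∀ w, IsIntegral ℤ ((y w : Eˣ) : E) := fun w => (u w : 𝓞 E).2
  have hyint' : ∀ w, IsIntegral ℤ (((y w)⁻¹ : Eˣ) : E) := fun w => ((u w)⁻¹ : (𝓞 E)ˣ).1.2
  refine ⟨ε, ?_, ?_, ?_⟩
  · intro w
    apply prin_unit
    · rw [hε, Units.coe_prod]
      refine IsIntegral.prod _ fun g _ => ?_
      exact (hyint (g⁻¹ • w)).map ((g : E →+* E).toIntAlgHom)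
    · rw [hε, ← Finset.prod_inv_distrib, Units.coe_prod]
      refine IsIntegral.prod _ fun g _ => ?_
      rw [← map_inv]
      exact (hyint' (g⁻¹ • w)).map ((g : E →+* E).toIntAlgHom)
  · intro g w
    rw [hε, Units.coe_prod, Units.coe_prod, map_prod]
    refine Finset.prod_bij' (fun h _ => g⁻¹ * h) (fun h _ => g * h) ?_ ?_ ?_ ?_ ?_
    · intro _ _; exact Finset.mem_univ _
    · intro _ _; exact Finset.mem_univ _
    · intro h _; exact mul_inv_cancel_left g h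
    · intro h _; exact inv_mul_cancel_left g h
    · intro h _
      have e1 : (g⁻¹ * h)⁻¹ • w = h⁻¹ • (g • w) := by
        rw [mul_inv_rev, inv_inv, mul_smul]
      rw [e1]
      change h _ = g ((g⁻¹ * h) _)
      rw [AlgEquiv.mul_apply]
      change _ = g (g⁻¹ (h _))
      rw [← AlgEquiv.mul_apply, mul_inv_cancel, AlgEquiv.one_apply]
  · intro w w' hw
    rw [hε, Units.coe_prod, map_prod]
    have h1 : ∀ g : E ≃ₐ[F] E, w' ((Units.map (g : E →* E) (y (g⁻¹ • w)) : Eˣ) : E) < 1 := by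
      intro g
      have e : w' ((Units.map (g : E →* E) (y (g⁻¹ • w)) : Eˣ) : E) = (g⁻¹ • w') (y (g⁻¹ • w) : E) := by
        rw [InfinitePlace.smul_apply]
        rfl
      rw [e]
      have hne : g⁻¹ • w' ≠ g⁻¹ • w := fun h => hw (smul_left_cancel _ h)
      have h2 := hu (g⁻¹ • w) (g⁻¹ • w') hne
      have h3 : 0 < (g⁻¹ • w') (y (g⁻¹ • w) : E) :=
        (InfinitePlace.pos_iff).2 (Units.ne_zero _)
      exact (Real.log_neg_iff h3).1 h2
    have h0 : ∀ g : E ≃ₐ[F] E, 0 < w' ((Units.map (g : E →* E) (y (g⁻¹ • w)) : Eˣ) : E) :=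
      fun g => (InfinitePlace.pos_iff).2 (Units.ne_zero _)
    calc ∏ g : E ≃ₐ[F] E, w' ((Units.map (g : E →* E) (y (g⁻¹ • w)) : Eˣ) : E)
        < ∏ g : E ≃ₐ[F] E, (1 : ℝ) :=
          Finset.prod_lt_prod_of_nonempty (fun g _ => h0 g) (fun g _ => h1 g)
            ⟨1, Finset.mem_univ _⟩
      _ = 1 := Finset.prod_const_one

end Pool.Agent.Q150.AR
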