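import Pool.Agent.Q92.AR.Stm

/-! # Project AR (helper92), jobs HEX, HFIN, MAT -/

set_option autoImplicit false

namespace Pool.Agent.Q150.AR

open Pool.Agent.Q92.AR

section
variable {A B C : Type} [AddCommGroup A] [AddCommGroup B] [AddCommGroup C]

theorem conn (i : A →+ B) (p : B →+ C) (hi : Function.Injective i) (hp : Function.Surjective p)
    (hex : i.range = p.ker) (fA : A →+ A) (fB : B →+ B) (fC : C →+ C)
    (h1 : ∀ a, i (fA a) = fB (i a)) (h2 : ∀ b, p (fB b) = fC (p b)) :
    (fB.ker.map p).relIndex fC.ker = fA.range.relIndex (fB.range.comap i) := by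
  have e1 : fC.ker = (fC.ker.comap p).map p := (AddSubgroup.map_comap_eq_self_of_surjective hp _).symm
  have e2 : (fB.ker.map p).comap p = ((i.range).map fB).comap fB := by
    rw [AddSubgroup.comap_map_eq, AddSubgroup.comap_map_eq, hex, sup_comm]
  have e3 : (i.range).map fB = fA.range.map i := by
    ext b
    constructor
    · rintro ⟨_, ⟨a, rfl⟩, rfl⟩
      exact ⟨fA a, ⟨a, rfl⟩, h1 a⟩
    · rintro ⟨_, ⟨a, rfl⟩, rfl⟩
      exact ⟨i a, ⟨a, rfl⟩, (h1 a).symm⟩
  have e4 : (fC.ker.comap p).map fB = (fB.range.comap i).map i := by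
    ext b
    constructor
    · rintro ⟨b', hb', rfl⟩
      have hb2 : fC (p b') = 0 := hb'
      have : fB b' ∈ i.range := by
        rw [hex, AddMonoidHom.mem_ker, h2, hb2]
      obtain ⟨a, ha⟩ := this
      exact ⟨a, ⟨b', ha.symm⟩, ha⟩
    · rintro ⟨a, ⟨b', hb'⟩, rfl⟩
      refine ⟨b', ?_, hb'⟩
      have hia : p (i a) = 0 := by
        have : i a ∈ p.ker := by rw [← hex]; exact ⟨a, rfl⟩
        exact this
      change fC (p b') = 0
      rw [← h2, hb', hia]
  calc (fB.ker.map p).relIndex fC.ker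
      = (fB.ker.map p).relIndex ((fC.ker.comap p).map p) := by rw [← e1]
    _ = ((fB.ker.map p).comap p).relIndex (fC.ker.comap p) := (AddSubgroup.relIndex_comap _ _ _).symm
    _ = (((i.range).map fB).comap fB).relIndex (fC.ker.comap p) := by rw [e2]
    _ = ((i.range).map fB).relIndex ((fC.ker.comap p).map fB) := AddSubgroup.relIndex_comap _ _ _
    _ = (fA.range.map i).relIndex ((fB.range.comap i).map i) := by rw [e3, e4]
    _ = fA.range.relIndex (fB.range.comap i) := AddSubgroup.relIndex_map_map_of_injective _ _ hi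

theorem half (i : A →+ B) (p : B →+ C) (hi : Function.Injective i) (hp : Function.Surjective p)
    (hex : i.range = p.ker) (fA gA : A →+ A) (fB gB : B →+ B) (fC gC : C →+ C)
    (h1 : ∀ a, i (fA a) = fB (i a)) (h2 : ∀ b, p (fB b) = fC (p b))
    (h3 : ∀ a, i (gA a) = gB (i a)) (h4 : ∀ b, p (gB b) = gC (p b))
    (hB : ∀ b, fB (gB b) = 0) :
    ∃ r1 r2 : ℕ, gA.range.relIndex fA.ker = gA.range.relIndex (gB.range.comap i) * r1 ∧
      gB.range.relIndex fB.ker = r1 * r2 ∧
      gC.range.relIndex fC.ker = r2 * (fB.ker.map p).relIndex fC.ker := by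
  refine ⟨(gB.range.comap i).relIndex fA.ker, gC.range.relIndex (fB.ker.map p), ?_, ?_, ?_⟩
  · refine (AddSubgroup.relIndex_mul_relIndex _ _ _ ?_ ?_).symm
    · rintro _ ⟨a, rfl⟩
      exact ⟨i a, (h3 a).symm⟩
    · rintro a ⟨b, hb⟩
      have : i (fA a) = i 0 := by rw [h1, ← hb, hB, map_zero]
      exact hi this
  · have hX : fB.ker ⊓ gC.range.comap p = fA.ker.map i ⊔ gB.range := by
      apply le_antisymm
      · rintro b ⟨hb1, ⟨c, hc⟩⟩
        obtain ⟨b', rfl⟩ := hp c
        have hb1' : fB b = 0 := hb1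
        have h5 : b - gB b' ∈ i.range := by
          rw [hex, AddMonoidHom.mem_ker, map_sub, h4, hc, sub_self]
        obtain ⟨a, ha⟩ := h5
        have h6 : fA a = 0 := by
          have : i (fA a) = i 0 := by rw [h1, ha, map_sub, hb1', hB, sub_zero, map_zero]
          exact hi this
        have h7 : b = i a + gB b' := by rw [ha, sub_add_cancel]
        rw [h7]
        exact AddSubgroup.add_mem_sup ⟨a, h6, rfl⟩ ⟨b', rfl⟩
      · apply sup_le
        · rintro _ ⟨a, ha, rfl⟩
          have ha' : fA a = 0 := ha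
          refine ⟨?_, ?_⟩
          · change fB (i a) = 0
            rw [← h1, ha', map_zero]
          · have : i a ∈ p.ker := by rw [← hex]; exact ⟨a, rfl⟩
            have h8 : p (i a) = 0 := this
            refine ⟨0, ?_⟩
            rw [h8, map_zero]
        · rintro _ ⟨b, rfl⟩
          exact ⟨hB b, ⟨p b, (h4 b).symm⟩⟩
    have h9 : gB.range.relIndex (fB.ker ⊓ gC.range.comap p) = (gB.range.comap i).relIndex fA.ker := by
      rw [hX, AddSubgroup.relIndex_sup_right, AddSubgroup.relIndex_comap]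
    have h10 : (fB.ker ⊓ gC.range.comap p).relIndex fB.ker = gC.range.relIndex (fB.ker.map p) := by
      rw [AddSubgroup.inf_relIndex_left, AddSubgroup.relIndex_comap]
    rw [← h9, ← h10]
    refine (AddSubgroup.relIndex_mul_relIndex _ _ _ ?_ inf_le_left).symm
    rw [hX]
    exact le_sup_right
  · refine (AddSubgroup.relIndex_mul_relIndex _ _ _ ?_ ?_).symm
    · rintro _ ⟨c, rfl⟩
      obtain ⟨b, rfl⟩ := hp c
      exact ⟨gB b, hB b, h4 b⟩
    · rintro _ ⟨b, hb, rfl⟩
      have hb' : fB b = 0 := hb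
      change fC (p b) = 0
      rw [← h2, hb', map_zero]

end

theorem df_tr {A : Type} [AddCommGroup A] (σ : AddMonoid.End A) (n : ℕ) (h : σ ^ n = 1) (a : A) :
    df σ (tr σ n a) = 0 := by
  have h1 : (σ - 1) * (∑ i ∈ Finset.range n, σ ^ i) = 0 := by
    rw [mul_geom_sum, h, sub_self]
  exact congrArg (fun f : AddMonoid.End A => f a) h1

theorem tr_df {A : Type} [AddCommGroup A] (σ : AddMonoid.End A) (n : ℕ) (h : σ ^ n = 1) (a : A) :
    tr σ n (df σ a) = 0 := by
  have h1 : (∑ i ∈ Finset.range n, σ ^ i) * (σ - 1) = 0 := by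
    rw [geom_sum_mul, h, sub_self]
  exact congrArg (fun f : AddMonoid.End A => f a) h1

theorem pow_comm {A B : Type} [AddCommGroup A] [AddCommGroup B] (α : AddMonoid.End A)
    (β : AddMonoid.End B) (i : A →+ B) (h : ∀ a, i (α a) = β (i a)) (k : ℕ) (a : A) :
    i ((α ^ k) a) = (β ^ k) (i a) := by
  induction k with
  | zero => rfl
  | succ k ih =>
    rw [pow_succ', pow_succ']
    change i (α ((α ^ k) a)) = β ((β ^ k) (i a))
    rw [h, ih]

theorem tr_comm {A B : Type} [AddCommGroup A] [AddCommGroup B] (α : AddMonoid.End A)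
    (β : AddMonoid.End B) (i : A →+ B) (h : ∀ a, i (α a) = β (i a)) (n : ℕ) (a : A) :
    i (tr α n a) = tr β n (i a) := by
  rw [tr_apply, tr_apply, map_sum]
  exact Finset.sum_congr rfl fun k _ => pow_comm α β i h k a

theorem df_comm {A B : Type} [AddCommGroup A] [AddCommGroup B] (α : AddMonoid.End A)
    (β : AddMonoid.End B) (i : A →+ B) (h : ∀ a, i (α a) = β (i a)) (a : A) :
    i (df α a) = df β (i a) := by
  rw [df_apply, df_apply, map_sub, h]

/-- JOB HEX -/
theorem hex : S_Hex := by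
  intro A B C _ _ _ α β γ i p n hn hα hβ hγ hi hp hex hiα hpβ
  obtain ⟨r1, r2, e1, e2, e3⟩ := half i p hi hp hex (df α) (tr α n) (df β) (tr β n) (df γ) (tr γ n)
    (df_comm α β i hiα) (df_comm β γ p hpβ) (tr_comm α β i hiα n) (tr_comm β γ p hpβ n)
    (df_tr β n hβ)
  obtain ⟨r4, r5, e4, e5, e6⟩ := half i p hi hp hex (tr α n) (df α) (tr β n) (df β) (tr γ n) (df γ)
    (tr_comm α β i hiα n) (tr_comm β γ p hpβ n) (df_comm α β i hiα) (df_comm β γ p hpβ)
    (tr_df β n hβ)
  rw [conn i p hi hp hex (df α) (df β) (df γ) (df_comm α β i hiα) (df_comm β γ p hpβ)] at e3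
  rw [conn i p hi hp hex (tr α n) (tr β n) (tr γ n) (tr_comm α β i hiα n)
    (tr_comm β γ p hpβ n)] at e6
  change q0 α n = _ at e1
  change q0 β n = _ at e2
  change q0 γ n = _ at e3
  change q1 α n = _ at e4
  change q1 β n = _ at e5
  change q1 γ n = _ at e6
  generalize (tr α n).range.relIndex ((tr β n).range.comap i) = r6 at e1 e6
  generalize (df α).range.relIndex ((df β).range.comap i) = r3 at e3 e4
  rw [e1, e2, e3, e4, e5, e6]
  simp only [ne_eq, mul_eq_zero, not_or]
  refine ⟨?_, ?_, ?_, ?_⟩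
  · tauto
  · tauto
  · tauto
  · intro _
    ring

/-- JOB HFIN -/
theorem hFin : S_HFin := by
  intro A _ _ σ n hn hσ
  have h1 : (tr σ n).range ≤ (df σ).ker := by
    rintro _ ⟨a, rfl⟩
    exact df_tr σ n hσ a
  have h2 : (df σ).range ≤ (tr σ n).ker := by
    rintro _ ⟨a, rfl⟩
    exact tr_df σ n hσ a
  have k1 : Nat.card (tr σ n).range * q0 σ n = Nat.card (df σ).ker := by
    have := AddSubgroup.relIndex_mul_relIndex ⊥ (tr σ n).range (df σ).ker bot_le h1
    rwa [AddSubgroup.relIndex_bot_left, AddSubgroup.relIndex_bot_left] at this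
  have k2 : Nat.card (df σ).range * q1 σ n = Nat.card (tr σ n).ker := by
    have := AddSubgroup.relIndex_mul_relIndex ⊥ (df σ).range (tr σ n).ker bot_le h2
    rwa [AddSubgroup.relIndex_bot_left, AddSubgroup.relIndex_bot_left] at this
  have k3 : Nat.card (df σ).ker * Nat.card (df σ).range = Nat.card A := by
    rw [← AddSubgroup.index_ker]
    exact AddSubgroup.card_mul_index _
  have k4 : Nat.card (tr σ n).ker * Nat.card (tr σ n).range = Nat.card A := by
    rw [← AddSubgroup.index_ker]
    exact AddSubgroup.card_mul_index _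
  have p1 : 0 < Nat.card (tr σ n).range := Nat.card_pos
  have p2 : 0 < Nat.card (df σ).range := Nat.card_pos
  have p3 : 0 < Nat.card (df σ).ker := Nat.card_pos
  constructor
  · rw [← k1] at k3
    rw [← k2] at k4
    have h5 : (Nat.card (tr σ n).range * Nat.card (df σ).range) * q0 σ n =
        (Nat.card (tr σ n).range * Nat.card (df σ).range) * q1 σ n := by
      calc _ = Nat.card (tr σ n).range * q0 σ n * Nat.card (df σ).range := by ring
        _ = Nat.card (df σ).range * q1 σ n * Nat.card (tr σ n).range := by rw [k3, k4]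
        _ = _ := by ring
    exact Nat.eq_of_mul_eq_mul_left (Nat.mul_pos p1 p2) h5
  · intro h0
    rw [h0, mul_zero] at k1
    omega

/-- half of JOB MAT -/
theorem mat_aux (W : Type) [Fintype W] (L : W → W → ℝ) (h1 : ∀ w w', w ≠ w' → L w w' < 0)
    (h2 : ∀ w, ∑ w', L w w' = 0) (a : W → ℝ) (h3 : ∀ w', ∑ w, a w * L w w' = 0) :
    (∀ w, 0 < a w) ∨ (∀ w, a w ≤ 0) := by
  classical
  by_contra hcon
  push Not at hcon
  obtain ⟨⟨w0, hw0⟩, ⟨w1, hw1⟩⟩ := hcon
  set P : Finset W := Finset.univ.filter fun w => 0 < a w with hP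
  have hz : ∑ w' ∈ P, ∑ w, a w * L w w' = 0 := Finset.sum_eq_zero fun w' _ => h3 w'
  rw [Finset.sum_comm] at hz
  have hpos : 0 < ∑ w, ∑ w' ∈ P, a w * L w w' := by
    refine Finset.sum_pos' ?_ ⟨w1, Finset.mem_univ _, ?_⟩
    · intro w _
      rw [← Finset.mul_sum]
      by_cases hw : 0 < a w
      · refine mul_nonneg hw.le ?_
        have h4 : ∑ w' ∈ P, L w w' = - ∑ w' ∈ Pᶜ, L w w' := by
          have := Finset.sum_add_sum_compl P (fun w' => L w w')
          rw [h2 w] at this
          linarith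
        rw [h4]
        refine neg_nonneg.2 (Finset.sum_nonpos fun w' hw' => (h1 w w' ?_).le)
        rintro rfl
        exact (Finset.mem_compl.1 hw') (Finset.mem_filter.2 ⟨Finset.mem_univ _, hw⟩)
      · refine mul_nonneg_of_nonpos_of_nonpos (not_lt.1 hw) ?_
        refine Finset.sum_nonpos fun w' hw' => (h1 w w' ?_).le
        rintro rfl
        exact hw (Finset.mem_filter.1 hw').2
    · rw [← Finset.mul_sum]
      refine mul_pos hw1 ?_
      have h4 : ∑ w' ∈ P, L w1 w' = - ∑ w' ∈ Pᶜ, L w1 w' := by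
        have := Finset.sum_add_sum_compl P (fun w' => L w1 w')
        rw [h2 w1] at this
        linarith
      rw [h4, ← Finset.sum_neg_distrib]
      have hmem : w1 ∈ P := Finset.mem_filter.2 ⟨Finset.mem_univ _, hw1⟩
      refine Finset.sum_pos (fun w' hw' => ?_) ⟨w0, ?_⟩
      · refine neg_pos.2 (h1 w1 w' ?_)
        rintro rfl
        exact (Finset.mem_compl.1 hw') hmem
      · rw [Finset.mem_compl, Finset.mem_filter]
        exact fun h => absurd h.2 (not_lt.2 hw0)
  exact absurd hz hpos.ne'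

/-- JOB MAT -/
theorem mat : S_Mat := by
  intro W _ L h1 h2 a h3
  rcases mat_aux W L h1 h2 a h3 with h | h
  · exact Or.inl h
  · rcases mat_aux W L h1 h2 (fun w => - a w) (fun w' => by
      have := h3 w'
      calc ∑ w, - a w * L w w' = - ∑ w, a w * L w w' := by
            rw [← Finset.sum_neg_distrib]
            exact Finset.sum_congr rfl fun w _ => by ring
        _ = 0 := by rw [this, neg_zero]) with h' | h'
    · exact Or.inr (Or.inl fun w => by have := h' w; linarith)
    · exact Or.inr (Or.inr fun w => by have := h' w; have := h w; linarith)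

end Pool.Agent.Q150.AR
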