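import Pool.Agent.Q150.AR.Cliff

/-! # Project AR (helper92), job MONO -/

set_option autoImplicit false
set_option linter.unusedSectionVars false

namespace Pool.Agent.Q150.AR

open Pool.Agent.H302R2 Pool.Agent.H541R3.ART Pool.Agent.W446.AS Pool.Agent.Q92.AR
open Pool.Agent.Q92.RT (induced)
open Pool.Agent.Q5.SO

section
variable {G : Type} [Group G] [Finite G]

/-- hyperelementary groups: subgroups -/
theorem hyper_sub (h : Hyper G) (H : Subgroup G) : Hyper H := by
  obtain ⟨p, hp, C, hC, hcyc, hcop, hpow⟩ := h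
  have h1 : HypAt p (⊤ : Subgroup G) :=
    ⟨C, le_top, fun h _ c hc => hC.conj_mem c hc h, hcyc, hcop, fun h _ => hpow h⟩
  exact (h1.le (le_top : H ≤ ⊤)).hyper hp

/-- hyperelementary groups: quotients -/
theorem hyper_quot {Q : Type} [Group Q] (f : G →* Q) (hf : Function.Surjective f) (h : Hyper G) :
    Hyper Q := by
  obtain ⟨p, hp, C, hC, hcyc, hcop, hpow⟩ := h
  refine ⟨p, hp, C.map f, hC.map f hf, ?_, ?_, ?_⟩
  · have : Function.Surjective (f.subgroupMap C) := f.subgroupMap_surjective C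
    exact isCyclic_of_surjective _ this
  · exact Nat.Coprime.coprime_dvd_left (Subgroup.card_dvd_of_surjective _
      (f.subgroupMap_surjective C)) hcop
  · intro q
    obtain ⟨g, rfl⟩ := hf q
    obtain ⟨k, hk⟩ := hpow g
    exact ⟨k, ⟨_, hk, map_pow _ _ _⟩⟩

/-- a noncommutative hyperelementary group has a noncentral abelian normal subgroup -/
theorem exists_abelian_normal (h : Hyper G) (hn : ¬ ∀ a b : G, a * b = b * a) :
    ∃ A : Subgroup G, A.Normal ∧ (∀ a b : A, a * b = b * a) ∧ ¬ A ≤ Subgroup.center G := by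
  obtain ⟨p, hp, C, hC, hcyc, hcop, hpow⟩ := h
  by_cases hCZ : C ≤ Subgroup.center G
  swap
  · refine ⟨C, hC, ?_, hCZ⟩
    exact fun a b => hcyc.isMulCommutative.is_comm.comm a b
  have : Fact p.Prime := ⟨hp⟩
  set Z := Subgroup.center G with hZ
  have hP : IsPGroup p (G ⧸ Z) := by
    intro q
    obtain ⟨g, rfl⟩ := QuotientGroup.mk_surjective q
    obtain ⟨k, hk⟩ := hpow g
    refine ⟨k, ?_⟩
    rw [← QuotientGroup.mk_pow, QuotientGroup.eq_one_iff]
    exact hCZ hk
  have hnt : Nontrivial (G ⧸ Z) := by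
    by_contra hcon
    rw [not_nontrivial_iff_subsingleton] at hcon
    apply hn
    intro a b
    have h1 : (a : G ⧸ Z) = 1 := Subsingleton.elim _ _
    rw [QuotientGroup.eq_one_iff] at h1
    exact (Subgroup.mem_center_iff.1 h1 b).symm
  have hc := hP.center_nontrivial
  obtain ⟨⟨q, hq⟩, hq1⟩ := exists_ne (1 : Subgroup.center (G ⧸ Z))
  have hq1' : q ≠ 1 := fun h => hq1 (Subtype.ext h)
  obtain ⟨x, rfl⟩ := QuotientGroup.mk_surjective q
  refine ⟨(Subgroup.zpowers (x : G ⧸ Z)).comap (QuotientGroup.mk' Z), ?_, ?_, ?_⟩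
  · have h1 : (Subgroup.zpowers (x : G ⧸ Z)).Normal := by
      constructor
      intro n hn g
      have h2 : n ∈ Subgroup.center (G ⧸ Z) := by
        have : Subgroup.zpowers (x : G ⧸ Z) ≤ Subgroup.center (G ⧸ Z) := Subgroup.zpowers_le.2 hq
        exact this hn
      rw [Subgroup.mem_center_iff.1 h2 g, mul_inv_cancel_right]
      exact hn
    exact h1.comap _
  · have key : ∀ a : G, (a : G ⧸ Z) ∈ Subgroup.zpowers (x : G ⧸ Z) →
        ∃ (i : ℤ) (z : G), z ∈ Z ∧ a = x ^ i * z := by
      rintro a ⟨i, hi⟩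
      refine ⟨i, (x ^ i)⁻¹ * a, ?_, by group⟩
      rw [← QuotientGroup.eq]
      exact hi
    rintro ⟨a, ha⟩ ⟨b, hb⟩
    obtain ⟨i, z, hz, rfl⟩ := key a ha
    obtain ⟨j, w, hw, rfl⟩ := key b hb
    apply Subtype.ext
    change x ^ i * z * (x ^ j * w) = x ^ j * w * (x ^ i * z)
    have hz' := Subgroup.mem_center_iff.1 hz
    have hw' := Subgroup.mem_center_iff.1 hw
    calc x ^ i * z * (x ^ j * w) = x ^ i * (z * x ^ j) * w := by group
      _ = x ^ i * (x ^ j * z) * w := by rw [hz' (x ^ j)]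
      _ = (x ^ i * x ^ j) * (z * w) := by group
      _ = (x ^ j * x ^ i) * (w * z) := by rw [hz' w, ← zpow_add, ← zpow_add, add_comm]
      _ = x ^ j * (x ^ i * w) * z := by group
      _ = x ^ j * (w * x ^ i) * z := by rw [hw' (x ^ i)]
      _ = x ^ j * w * (x ^ i * z) := by group
  · intro hle
    have h1 : x ∈ Z := hle (by
      rw [Subgroup.mem_comap]
      exact Subgroup.mem_zpowers _)
    exact hq1' ((QuotientGroup.eq_one_iff x).2 h1)

/-- transitivity of induction -/
theorem inducedF_induced (I : Subgroup G) (H : Subgroup I) (ψ : H →* ℂˣ) (g : G) :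
    inducedF I (fun y => induced H ψ y) g =
      induced (H.map I.subtype)
        (ψ.comp (H.equivMapOfInjective I.subtype I.subtype_injective).symm.toMonoidHom) g := by
  classical
  have : Fintype G := Fintype.ofFinite G
  have : Fintype I := Fintype.ofFinite I
  have hI0 : (Nat.card I : ℂ) ≠ 0 := card_ne
  have hcard : Nat.card (H.map I.subtype) = Nat.card H :=
    (Nat.card_congr (H.equivMapOfInjective I.subtype I.subtype_injective).toEquiv).symm
  set e := H.equivMapOfInjective I.subtype I.subtype_injective with he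
  -- the summand
  let F : G → ℂ := fun z => if h : z⁻¹ * g * z ∈ H.map I.subtype then
    ((ψ (e.symm ⟨z⁻¹ * g * z, h⟩) : ℂˣ) : ℂ) else 0
  have hF : ∀ (x : G) (hx : x⁻¹ * g * x ∈ I) (y : I),
      (if h : y⁻¹ * ⟨x⁻¹ * g * x, hx⟩ * y ∈ H then
        ((ψ ⟨y⁻¹ * ⟨x⁻¹ * g * x, hx⟩ * y, h⟩ : ℂˣ) : ℂ) else 0) = F (x * y) := by
    intro x hx y
    have e1 : (x * (y : G))⁻¹ * g * (x * y) = ((y⁻¹ * ⟨x⁻¹ * g * x, hx⟩ * y : I) : G) := by
      simp only [Subgroup.coe_mul, Subgroup.coe_inv]
      group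
    change _ = if h : (x * (y : G))⁻¹ * g * (x * y) ∈ H.map I.subtype then
      ((ψ (e.symm ⟨_, h⟩) : ℂˣ) : ℂ) else 0
    by_cases h : y⁻¹ * ⟨x⁻¹ * g * x, hx⟩ * y ∈ H
    · have h2 : (x * (y : G))⁻¹ * g * (x * y) ∈ H.map I.subtype := by
        rw [e1]
        exact ⟨_, h, rfl⟩
      rw [dif_pos h, dif_pos h2]
      congr 2
      rw [MulEquiv.eq_symm_apply]
      apply Subtype.ext
      rw [he, Subgroup.coe_equivMapOfInjective_apply]
      exact e1.symm
    · have h2 : ¬ (x * (y : G))⁻¹ * g * (x * y) ∈ H.map I.subtype := by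
        rintro ⟨z, hz, hz2⟩
        apply h
        have h3 : z = y⁻¹ * ⟨x⁻¹ * g * x, hx⟩ * y := by
          apply Subtype.ext
          rw [← e1]
          exact hz2
        rw [← h3]
        exact hz
      rw [dif_neg h, dif_neg h2]
  have hF0 : ∀ (x : G) (hx : ¬ x⁻¹ * g * x ∈ I) (y : I), F (x * y) = 0 := by
    intro x hx y
    change (if h : (x * (y : G))⁻¹ * g * (x * y) ∈ H.map I.subtype then
      ((ψ (e.symm ⟨_, h⟩) : ℂˣ) : ℂ) else 0) = 0
    rw [dif_neg]
    rintro ⟨z, hz, hz2⟩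
    apply hx
    have h3 : x⁻¹ * g * x = ((y * z * y⁻¹ : I) : G) := by
      have hz3 : ((z : I) : G) = (x * (y : G))⁻¹ * g * (x * y) := hz2
      simp only [Subgroup.coe_mul, Subgroup.coe_inv, hz3]
      group
    rw [h3]
    exact Subtype.property _
  have hL : inducedF I (fun y => induced H ψ y) g =
      (Nat.card I : ℂ)⁻¹ * ∑ x : G, (Nat.card H : ℂ)⁻¹ * ∑ y : I, F (x * y) := by
    unfold inducedF
    rw [finsum_eq_sum_of_fintype]
    congr 1
    refine Finset.sum_congr rfl fun x _ => ?_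
    by_cases hx : x⁻¹ * g * x ∈ I
    · rw [dif_pos hx]
      change induced H ψ ⟨x⁻¹ * g * x, hx⟩ = _
      unfold Pool.Agent.Q92.RT.induced
      rw [finsum_eq_sum_of_fintype]
      congr 1
      exact Finset.sum_congr rfl fun y _ => hF x hx y
    · rw [dif_neg hx, Finset.sum_eq_zero (fun y _ => hF0 x hx y), mul_zero]
  rw [hL, ← Finset.mul_sum, Finset.sum_comm]
  have hS : ∀ y : I, ∑ x : G, F (x * y) = ∑ z : G, F z := fun y =>
    Fintype.sum_equiv (Equiv.mulRight (y : G)) _ _ fun x => rfl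
  rw [Finset.sum_congr rfl fun y _ => hS y, Finset.sum_const, Finset.card_univ, nsmul_eq_mul,
    ← Nat.card_eq_fintype_card (α := I)]
  unfold Pool.Agent.Q92.RT.induced
  rw [finsum_eq_sum_of_fintype, hcard]
  have h9 : (Nat.card I : ℂ)⁻¹ * ((Nat.card H : ℂ)⁻¹ * ((Nat.card I : ℂ) * ∑ z : G, F z)) =
      (Nat.card H : ℂ)⁻¹ * ∑ z : G, F z := by
    field_simp
  rw [h9]
  rfl

/-- inflation of induced characters -/
theorem induced_inflate (K : Subgroup G) [K.Normal] (H : Subgroup (G ⧸ K)) (ψ : H →* ℂˣ) (g : G) :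
    induced H ψ (g : G ⧸ K) =
      induced (H.comap (QuotientGroup.mk' K))
        (ψ.comp (((QuotientGroup.mk' K).subgroupComap H))) g := by
  classical
  have : Fintype G := Fintype.ofFinite G
  have : Fintype (G ⧸ K) := Fintype.ofFinite _
  have hK0 : (Nat.card K : ℂ) ≠ 0 := card_ne
  have hcard : Nat.card (H.comap (QuotientGroup.mk' K)) = Nat.card K * Nat.card H := by
    have h1 := (H.comap (QuotientGroup.mk' K)).card_mul_index
    have h2 := H.card_mul_index
    have h3 : (H.comap (QuotientGroup.mk' K)).index = H.index :=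
      Subgroup.index_comap_of_surjective _ (QuotientGroup.mk'_surjective K)
    have h4 : Nat.card G = Nat.card (G ⧸ K) * Nat.card K :=
      Subgroup.card_eq_card_quotient_mul_card_subgroup K
    have h5 : 0 < H.index := Nat.pos_of_ne_zero Subgroup.index_ne_zero_of_finite
    rw [h3, h4, ← h2] at h1
    apply Nat.eq_of_mul_eq_mul_right h5
    rw [h1]
    ring
  let F : G ⧸ K → ℂ := fun q => if h : q⁻¹ * (g : G ⧸ K) * q ∈ H then
    ((ψ ⟨q⁻¹ * (g : G ⧸ K) * q, h⟩ : ℂˣ) : ℂ) else 0
  have hR : ∀ x : G, (if h : x⁻¹ * g * x ∈ H.comap (QuotientGroup.mk' K) then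
      (((ψ.comp (((QuotientGroup.mk' K).subgroupComap H))) ⟨x⁻¹ * g * x, h⟩ : ℂˣ) : ℂ) else 0) =
      F (x : G ⧸ K) := by
    intro x
    rfl
  have hsum : ∑ x : G, F (x : G ⧸ K) = (Nat.card K : ℂ) * ∑ q : G ⧸ K, F q := by
    have h1 : ∑ x : G, F (x : G ⧸ K) = ∑ y : (G ⧸ K) × K, F y.1 := by
      refine Fintype.sum_equiv (Subgroup.groupEquivQuotientProdSubgroup (s := K)) _ _ fun x => ?_
      rfl
    rw [h1, Fintype.sum_prod_type]
    simp only [Finset.sum_const, Finset.card_univ, nsmul_eq_mul]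
    rw [← Finset.mul_sum, Nat.card_eq_fintype_card]
  unfold Pool.Agent.Q92.RT.induced
  rw [finsum_eq_sum_of_fintype, finsum_eq_sum_of_fintype, Finset.sum_congr rfl fun x _ => hR x,
    hsum, hcard, Nat.cast_mul, mul_inv]
  change (Nat.card H : ℂ)⁻¹ * ∑ q : G ⧸ K, F q = _
  field_simp

end

/-- JOB MONO -/
theorem mono : S_Mono := by
  have key : ∀ (n : ℕ) (G : Type) [Group G] [Finite G], Nat.card G = n → Hyper G → ∀ χ ∈ Irr G,
      ∃ (H : Subgroup G) (ψ : H →* ℂˣ), ∀ g, χ g = induced H ψ g := by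
    intro n
    induction n using Nat.strong_induction_on with
    | _ n ih =>
    intro G _ _ hn hG χ hχ
    classical
    have : Fintype G := Fintype.ofFinite G
    obtain ⟨m, ρ, hρ, rfl⟩ := exists_rep hχ
    -- the kernel
    by_cases hK : ρ.ker = ⊥
    swap
    · have hKn : ρ.ker.Normal := inferInstance
      let σ : Representation ℂ (G ⧸ ρ.ker) (Fin m → ℂ) :=
        QuotientGroup.lift ρ.ker ρ (fun g hg => hg)
      have hσ : ∀ g : G, σ (g : G ⧸ ρ.ker) = ρ g := fun g => rfl
      have hσI : Irred σ := ⟨hρ.1, fun W hW => hρ.2 W fun g v hv => by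
        have := hW (g : G ⧸ ρ.ker) v hv
        rwa [hσ] at this⟩
      have hlt : Nat.card (G ⧸ ρ.ker) < n := by
        rw [← hn]
        have h4 : Nat.card G = Nat.card (G ⧸ ρ.ker) * Nat.card ρ.ker :=
          Subgroup.card_eq_card_quotient_mul_card_subgroup ρ.ker
        have h5 : 1 < Nat.card ρ.ker := by
          exact (Subgroup.one_lt_card_iff_ne_bot _).2 hK
        have h6 : 0 < Nat.card (G ⧸ ρ.ker) := Nat.card_pos
        rw [h4]
        nlinarith
      obtain ⟨H, ψ, hψ⟩ := ih _ hlt (G ⧸ ρ.ker) rfl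
        (hyper_quot (QuotientGroup.mk' ρ.ker) (QuotientGroup.mk'_surjective _) hG) σ.character
        (irr_of_irred hσI)
      refine ⟨H.comap (QuotientGroup.mk' ρ.ker),
        ψ.comp (((QuotientGroup.mk' ρ.ker).subgroupComap H)), fun g => ?_⟩
      rw [← induced_inflate ρ.ker H ψ g, ← hψ]
      rfl
    have hf : ∀ g, ρ g = 1 → g = 1 := by
      intro g hg
      have : g ∈ ρ.ker := hg
      rw [hK] at this
      exact this
    by_cases hab : ∀ a b : G, a * b = b * a
    · obtain ⟨μ, v₀, hv₀, hμ⟩ := exists_weight hab ρ hρ.1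
      have h1 : ∀ v : Fin m → ℂ, ∃ c : ℂ, v = c • v₀ := by
        intro v
        rcases hρ.2 (Submodule.span ℂ {v₀}) (by
          intro g w hw
          rw [Submodule.mem_span_singleton] at hw ⊢
          obtain ⟨c, rfl⟩ := hw
          refine ⟨c * ((μ g : ℂˣ) : ℂ), ?_⟩
          rw [map_smul, hμ, smul_smul]) with h | h
        · exfalso
          rw [Submodule.span_singleton_eq_bot] at h
          exact hv₀ h
        · have h2 : v ∈ Submodule.span ℂ {v₀} := by rw [h]; exact Submodule.mem_top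
          rw [Submodule.mem_span_singleton] at h2
          obtain ⟨c, hc⟩ := h2
          exact ⟨c, hc.symm⟩
      have hfr : Module.finrank ℂ (Fin m → ℂ) = 1 :=
        finrank_eq_one_iff_of_nonzero' v₀ hv₀ |>.2 fun w => (h1 w).imp fun c hc => hc.symm
      have hchar : ∀ g, ρ.character g = ((μ g : ℂˣ) : ℂ) := by
        intro g
        have h2 : ρ g = ((μ g : ℂˣ) : ℂ) • LinearMap.id := by
          refine LinearMap.ext fun v => ?_
          obtain ⟨c, rfl⟩ := h1 v
          rw [map_smul, hμ, smul_comm]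
          rfl
        change LinearMap.trace ℂ _ (ρ g) = _
        rw [h2, map_smul, LinearMap.trace_id, hfr]
        simp
      refine ⟨⊤, μ.comp (⊤ : Subgroup G).subtype, fun g => ?_⟩
      unfold Pool.Agent.Q92.RT.induced
      rw [finsum_eq_sum_of_fintype, hchar]
      have h3 : ∀ x : G, (if h : x⁻¹ * g * x ∈ (⊤ : Subgroup G) then
          (((μ.comp (⊤ : Subgroup G).subtype) ⟨x⁻¹ * g * x, h⟩ : ℂˣ) : ℂ) else 0) =
          ((μ g : ℂˣ) : ℂ) := by
        intro x
        rw [dif_pos (Subgroup.mem_top _)]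
        change ((μ (x⁻¹ * g * x) : ℂˣ) : ℂ) = _
        rw [mul_assoc, hab g x, inv_mul_cancel_left]
      rw [Finset.sum_congr rfl fun x _ => h3 x, Finset.sum_const, Finset.card_univ, nsmul_eq_mul,
        Subgroup.card_top, Nat.card_eq_fintype_card]
      have : (Fintype.card G : ℂ) ≠ 0 := by exact_mod_cast Fintype.card_ne_zero
      field_simp
    · obtain ⟨A, hA, hAab, hAZ⟩ := exists_abelian_normal hG hab
      obtain ⟨I, hI, η, hη, hind⟩ := cliffRep' hρ A hAab (by
        intro hsc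
        apply hAZ
        intro a ha
        rw [Subgroup.mem_center_iff]
        intro g
        obtain ⟨c, hc⟩ := hsc a ha
        have h1 : ρ (g * a * (a * g)⁻¹) = 1 := by
          have h2 : ρ (g * a) = ρ (a * g) := by
            refine LinearMap.ext fun v => ?_
            rw [map_mul, map_mul, Module.End.mul_apply, Module.End.mul_apply, hc, hc, map_smul]
          rw [map_mul, h2, ← map_mul, mul_inv_cancel, map_one]
        exact mul_inv_eq_one.1 (hf _ h1))
      have hlt : Nat.card I < n := by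
        rw [← hn]
        have := Subgroup.card_le_card_group I
        refine lt_of_le_of_ne this fun h => hI ?_
        exact Subgroup.eq_top_of_card_eq I h
      obtain ⟨H, ψ, hψ⟩ := ih _ hlt I rfl (hyper_sub hG I) η hη
      refine ⟨H.map I.subtype,
        ψ.comp (H.equivMapOfInjective I.subtype I.subtype_injective).symm.toMonoidHom,
        fun g => ?_⟩
      rw [hind, ← inducedF_induced I H ψ g]
      congr 1
      funext y
      exact hψ y
  intro G _ _ hG χ hχ
  exact key _ G rfl hG χ hχ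

end Pool.Agent.Q150.AR
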